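import Pool.Agent.K1H35.LK.Defs

set_option autoImplicit false

/-!
# Functions of finite type on the braid groups and the lower central series (task T10 of
MP_5b16f0_gt)
-/

noncomputable section

namespace Pool.Agent.K1H20.LK

open Pool.Agent.K1H35.LK

variable {A : Type} [AddCommGroup A]

/-- right translation of functions -/
def T (g : Br) : AddMonoid.End (Br → A) where
  toFun f := fun b => f (b * g)
  map_zero' := rfl
  map_add' _ _ := rfl

theorem T_apply (g : Br) (f : Br → A) (b : Br) : (T g : AddMonoid.End (Br → A)) f b = f (b * g) :=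
  rfl

theorem T_mul (g h : Br) : (T (g * h) : AddMonoid.End (Br → A)) = T g * T h := by
  ext f b
  change f (b * (g * h)) = f (b * g * h)
  rw [mul_assoc]

theorem T_one : (T 1 : AddMonoid.End (Br → A)) = 1 := by
  ext f b
  change f (b * 1) = f b
  rw [mul_one]

/-- the operator of a double point and the following braid -/
def w (p : ℕ × Br) : AddMonoid.End (Br → A) := (T (s p.1) - T (s p.1)⁻¹) * T p.2

theorem res_eq (f : Br → A) (S : List (ℕ × Br)) : ∀ y : Br,
    res f S y = ((S.map (w (A := A))).prod f) y := by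
  induction S with
  | nil =>
    intro y
    rfl
  | cons p S ih =>
    intro y
    obtain ⟨i, z⟩ := p
    rw [List.map_cons, List.prod_cons]
    change res f S (y * s i * z) - res f S (y * (s i)⁻¹ * z) =
      ((S.map (w (A := A))).prod f) (y * s i * z) - ((S.map (w (A := A))).prod f) (y * (s i)⁻¹ * z)
    rw [ih, ih]

/-- singular words with `D` double points, as operators -/
inductive Wd (N : ℕ) : ℕ → AddMonoid.End (Br → A) → Prop
  | base (y : Br) (hy : y ∈ BN N) : Wd N 0 (T y)
  | step (D : ℕ) (e : AddMonoid.End (Br → A)) (h : Wd N D e) (i : ℕ) (hi : i + 1 < N) (z : Br)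
      (hz : z ∈ BN N) : Wd N (D + 1) (e * ((T (s i) - T (s i)⁻¹) * T z))

theorem Wd.word {N D : ℕ} {e : AddMonoid.End (Br → A)} (h : Wd N D e) :
    ∃ S y, Sing N S y ∧ S.length = D ∧ e = T y * (S.map (w (A := A))).prod := by
  induction h with
  | base y hy =>
    exact ⟨[], y, ⟨hy, fun p hp => absurd hp List.not_mem_nil⟩, rfl, by
      rw [List.map_nil, List.prod_nil, mul_one]⟩
  | step D e h i hi z hz ih =>
    obtain ⟨S, y, h1, h2, h3⟩ := ih
    refine ⟨S ++ [(i, z)], y, ⟨h1.1, fun p hp => ?_⟩, ?_, ?_⟩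
    · rcases List.mem_append.1 hp with hp | hp
      · exact h1.2 p hp
      · rw [List.mem_singleton] at hp
        subst hp
        exact ⟨hi, hz⟩
    · rw [List.length_append, h2]
      try rfl
    · rw [List.map_append, List.prod_append, h3, mul_assoc]
      congr 2

theorem Wd.right {N D : ℕ} {e : AddMonoid.End (Br → A)} (h : Wd N D e) (g : Br) (hg : g ∈ BN N) :
    Wd N D (e * T g) := by
  cases h with
  | base y hy =>
    rw [← T_mul]
    exact Wd.base _ (mul_mem hy hg)
  | step D e h i hi z hz =>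
    have : e * ((T (s i) - T (s i)⁻¹) * T z) * T g = e * ((T (s i) - T (s i)⁻¹) * T (z * g)) := by
      rw [T_mul, mul_assoc, mul_assoc]
    rw [this]
    exact Wd.step D e h i hi _ (mul_mem hz hg)

theorem Wd.mul {N a b : ℕ} {e e' : AddMonoid.End (Br → A)} (h : Wd N a e) (h' : Wd N b e') :
    Wd N (a + b) (e * e') := by
  induction h' with
  | base y hy => exact h.right y hy
  | step D e' _ i hi z hz ih =>
    rw [← mul_assoc]
    exact Wd.step _ _ ih i hi z hz

/-- the filtration -/
def IW (N D : ℕ) : AddSubgroup (AddMonoid.End (Br → A)) :=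
  AddSubgroup.closure {e | Wd N D e}

theorem IW_mul {N a b : ℕ} {x y : AddMonoid.End (Br → A)} (hx : x ∈ IW N a) (hy : y ∈ IW N b) :
    x * y ∈ IW N (a + b) := by
  have h1 : ∀ x' : AddMonoid.End (Br → A), Wd N a x' → x' * y ∈ IW N (a + b) := by
    intro x' hx'
    unfold IW at hy
    induction hy using AddSubgroup.closure_induction with
    | mem y hy => exact AddSubgroup.subset_closure (hx'.mul hy)
    | zero => rw [mul_zero]; exact AddSubgroup.zero_mem _
    | add y z _ _ h1 h2 => rw [mul_add]; exact AddSubgroup.add_mem _ h1 h2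
    | neg y _ h =>
      convert AddSubgroup.neg_mem _ h using 1
      exact mul_neg x' y
  unfold IW at hx
  induction hx using AddSubgroup.closure_induction with
  | mem x hx => exact h1 x hx
  | zero => rw [zero_mul]; exact AddSubgroup.zero_mem _
  | add x z _ _ h1 h2 => rw [add_mul]; exact AddSubgroup.add_mem _ h1 h2
  | neg x _ h =>
    convert AddSubgroup.neg_mem _ h using 1
    exact neg_mul x y

theorem T_IW {N : ℕ} {g : Br} (hg : g ∈ BN N) : (T g : AddMonoid.End (Br → A)) ∈ IW N 0 :=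
  AddSubgroup.subset_closure (Wd.base g hg)

theorem s_mem {N i : ℕ} (hi : i + 1 < N) : s i ∈ BN N := Subgroup.subset_closure ⟨i, hi, rfl⟩

theorem dn_mem (N : ℕ) (i : ℕ) : ∀ t, i + t < N → dn i t ∈ BN N := by
  intro t
  induction t with
  | zero => exact fun _ => one_mem _
  | succ t ih =>
    intro h
    exact mul_mem (s_mem (by omega)) (ih (by omega))

/-- the elements `x` with `x - 1` in the filtration form a group -/
def GG (N D : ℕ) : Subgroup Br where
  carrier := {x | x ∈ BN N ∧ (T x - 1 : AddMonoid.End (Br → A)) ∈ IW N D}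
  one_mem' := ⟨one_mem _, by rw [T_one, sub_self]; exact AddSubgroup.zero_mem _⟩
  mul_mem' := by
    rintro x y ⟨hx, hx'⟩ ⟨hy, hy'⟩
    refine ⟨mul_mem hx hy, ?_⟩
    have h1 : (T (x * y) - 1 : AddMonoid.End (Br → A)) = T x * (T y - 1) + (T x - 1) := by
      rw [T_mul, mul_sub, mul_one]
      abel
    rw [h1]
    have h2 := IW_mul (T_IW (A := A) hx) hy'
    rw [zero_add] at h2
    exact AddSubgroup.add_mem _ h2 hx'
  inv_mem' := by
    rintro x ⟨hx, hx'⟩
    refine ⟨inv_mem hx, ?_⟩
    have h0 : (T x⁻¹ * T x : AddMonoid.End (Br → A)) = 1 := by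
      rw [← T_mul, inv_mul_cancel, T_one]
    have h1 : (T x⁻¹ - 1 : AddMonoid.End (Br → A)) = -(T x⁻¹ * (T x - 1)) := by
      rw [mul_sub, h0, mul_one]
      abel
    rw [h1]
    have h2 := IW_mul (T_IW (A := A) (inv_mem hx)) hx'
    rw [zero_add] at h2
    exact AddSubgroup.neg_mem _ h2

theorem mem_GG {N D : ℕ} {x : Br} :
    x ∈ GG (A := A) N D ↔ x ∈ BN N ∧ (T x - 1 : AddMonoid.End (Br → A)) ∈ IW N D := Iff.rfl

theorem sq_mem {N i : ℕ} (hi : i + 1 < N) : s i ^ 2 ∈ GG (A := A) N 1 := by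
  refine ⟨pow_mem (s_mem hi) 2, AddSubgroup.subset_closure ?_⟩
  have h1 := Wd.step (A := A) (N := N) 0 _ (Wd.base 1 (one_mem _)) i hi (s i) (s_mem hi)
  have h2 : (T 1 * ((T (s i) - T (s i)⁻¹) * T (s i)) : AddMonoid.End (Br → A)) =
      T (s i ^ 2) - 1 := by
    rw [T_one, one_mul, sub_mul, ← T_mul, ← T_mul, inv_mul_cancel, T_one, pow_two]
  rw [h2] at h1
  exact h1

theorem conj_mem {N D : ℕ} {g x : Br} (hg : g ∈ BN N) (hx : x ∈ GG (A := A) N D) :
    g * x * g⁻¹ ∈ GG (A := A) N D := by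
  refine ⟨mul_mem (mul_mem hg hx.1) (inv_mem hg), ?_⟩
  have h0 : (T g * T g⁻¹ : AddMonoid.End (Br → A)) = 1 := by
    rw [← T_mul, mul_inv_cancel, T_one]
  have h1 : (T (g * x * g⁻¹) - 1 : AddMonoid.End (Br → A)) = T g * (T x - 1) * T g⁻¹ := by
    rw [T_mul, T_mul, mul_sub, mul_one, sub_mul, h0]
  rw [h1]
  have h2 := IW_mul (IW_mul (T_IW (A := A) hg) hx.2) (T_IW (inv_mem hg))
  rwa [zero_add, add_zero] at h2

theorem pure_le (hPu : S_PURE) (N : ℕ) : PN N ≤ GG (A := A) N 1 := by
  refine (hPu N).trans ((Subgroup.closure_le _).2 ?_)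
  rintro x ⟨i, t, h, rfl⟩
  exact conj_mem (dn_mem N (i + 1) t (by omega)) (sq_mem (by omega))

theorem gam_le (hPu : S_PURE) (N : ℕ) : ∀ n, Gam N n ≤ GG (A := A) N (n + 1) := by
  intro n
  induction n with
  | zero => exact pure_le hPu N
  | succ n ih =>
    change ⁅Gam N n, PN N⁆ ≤ _
    rw [Subgroup.commutator_le]
    intro x hx p hp
    obtain ⟨hx1, hx2⟩ := ih hx
    obtain ⟨hp1, hp2⟩ := pure_le (A := A) hPu N hp
    rw [commutatorElement_def]
    refine ⟨mul_mem (mul_mem (mul_mem hx1 hp1) (inv_mem hx1)) (inv_mem hp1), ?_⟩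
    have h0 : (T p * T x * (T x⁻¹ * T p⁻¹) : AddMonoid.End (Br → A)) = 1 := by
      rw [← T_mul, ← T_mul, ← T_mul]
      have : p * x * (x⁻¹ * p⁻¹) = 1 := by group
      rw [this, T_one]
    have h1 : (T (x * p * x⁻¹ * p⁻¹) - 1 : AddMonoid.End (Br → A)) =
        ((T x - 1) * (T p - 1) - (T p - 1) * (T x - 1)) * (T x⁻¹ * T p⁻¹) := by
      have h2 : ((T x - 1) * (T p - 1) - (T p - 1) * (T x - 1) : AddMonoid.End (Br → A)) =
          T x * T p - T p * T x := by
        simp only [sub_mul, mul_sub, mul_one, one_mul]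
        abel
      rw [h2, sub_mul, h0, T_mul, T_mul, T_mul, mul_assoc (T x * T p)]
    rw [h1]
    have h3 := IW_mul hx2 hp2
    have h4 := IW_mul hp2 hx2
    have h5 : n + 1 + 1 = 1 + (n + 1) := by omega
    rw [← h5] at h4
    have h6 := IW_mul (AddSubgroup.sub_mem _ h3 h4)
      (IW_mul (T_IW (A := A) (inv_mem hx1)) (T_IW (inv_mem hp1)))
    exact h6

/-- **T10.** -/
theorem t_GAMI (hPu : S_PURE) : S_GAMI := by
  intro N n A _ f hf y hy x hx
  set ev : AddMonoid.End (Br → A) →+ A :=
    { toFun := fun e => e f 1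
      map_zero' := rfl
      map_add' := fun _ _ => rfl } with hev
  have h1 : ∀ e ∈ IW (A := A) N (n + 1), ev e = 0 := by
    intro e he
    have h2 : IW (A := A) N (n + 1) ≤ ev.ker := by
      refine (AddSubgroup.closure_le _).2 ?_
      intro e he
      obtain ⟨S, y, h3, h4, rfl⟩ := Wd.word he
      change ((S.map (w (A := A))).prod f) (1 * y) = 0
      rw [one_mul, ← res_eq]
      exact hf S y h3 h4
    exact h2 he
  have h2 := IW_mul (T_IW (A := A) hy) (gam_le (A := A) hPu N n hx).2
  rw [zero_add] at h2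
  have h3 := h1 _ h2
  change f (1 * y * x) - f (1 * y) = 0 at h3
  rw [one_mul] at h3
  exact sub_eq_zero.1 h3

end Pool.Agent.K1H20.LK
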